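import Pool.Agent.helper27.PC2.REPQ

/-!
# PC project, second half: module `HKP` (sign pattern of the traces on the words between two states)
-/

namespace Pool.Agent.helper27.PC

open Module Finset Polynomial

section hkp

variable {K : Type*} [Field K] {Q v : K}

theorem HKP_relF (hv : GenQ Q v) (n N : ℕ) (M S : St) :
    RelA (v - v⁻¹) N fun i => matF (paths N M S) (opQ Q v n i) := by
  have hx := xQ_ok hv n
  have hst : ∀ i, Stab (paths N M S) (opQ Q v n i) := fun i => Stab_opQ hv n N M S i
  refine ⟨?_, ?_, ?_⟩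
  · intro i hi1 hi
    show matF (paths N M S) (opQ Q v n i) * matF (paths N M S) (opQ Q v n i) =
      (v - v⁻¹) • matF (paths N M S) (opQ Q v n i) + 1
    rw [← matF_mul (hst i)]
    have : (v - v⁻¹) • matF (paths N M S) (opQ Q v n i) + 1 =
        matF (paths N M S) ((v - v⁻¹) • opQ Q v n i + 1) := by
      rw [← matF_one]
      ext w w'
      simp [matF, Matrix.add_apply, Matrix.smul_apply, LinearMap.add_apply, LinearMap.smul_apply]
    rw [this]
    apply matF_congr
    intro w hw
    have hl := length_of_mem_paths hw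
    rw [LinearMap.add_apply, LinearMap.smul_apply, Module.End.mul_apply, Module.End.one_apply]
    obtain ⟨i, rfl⟩ : ∃ j, i = j + 1 := ⟨i - 1, by omega⟩
    obtain ⟨p, a, b, z, rfl, hp⟩ := exists_split₂ (i := i) (w := w) (by omega)
    exact quad_word hx hp (mem_split₂ hw).1
  · intro i hi1 hi2
    show matF (paths N M S) (opQ Q v n i) * matF (paths N M S) (opQ Q v n (i + 1)) *
        matF (paths N M S) (opQ Q v n i) =
      matF (paths N M S) (opQ Q v n (i + 1)) * matF (paths N M S) (opQ Q v n i) *
        matF (paths N M S) (opQ Q v n (i + 1))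
    rw [← matF_mul (hst _), ← matF_mul (hst _), ← matF_mul (hst _), ← matF_mul (hst _)]
    apply matF_congr
    intro w hw
    have hl := length_of_mem_paths hw
    obtain ⟨j, rfl⟩ : ∃ j, i = j + 1 := ⟨i - 1, by omega⟩
    obtain ⟨p, a, b, c, z, rfl, hp⟩ := exists_split₃ (i := j) (w := w) (by omega)
    obtain ⟨h1, h2, h3⟩ := mem_split₃ hw
    exact braid_word hx hp h1 h2 h3
  · intro i j hi hij hj
    show matF (paths N M S) (opQ Q v n i) * matF (paths N M S) (opQ Q v n j) =
      matF (paths N M S) (opQ Q v n j) * matF (paths N M S) (opQ Q v n i)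
    rw [← matF_mul (hst _), ← matF_mul (hst _)]
    apply matF_congr
    intro w hw
    have hl := length_of_mem_paths hw
    obtain ⟨j, rfl⟩ : ∃ k, j = k + 1 := ⟨j - 1, by omega⟩
    obtain ⟨i, rfl⟩ : ∃ k, i = k + 1 := ⟨i - 1, by omega⟩
    rw [Module.End.mul_apply, Module.End.mul_apply]
    exact comm_word (by omega) (by omega)

theorem HKP_mul {I : Type*} [Fintype I] [DecidableEq I] (A B : Matrix I I K) :
    (Matrix.toLin' (A * B) : Module.End K (I → K)) = Matrix.toLin' A * Matrix.toLin' B :=
  Matrix.toLin'_mul A B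

theorem HKP_toLin {I : Type*} [Fintype I] [DecidableEq I] {c : K} {N : ℕ} {f : ℕ → Matrix I I K}
    (h : RelA c N f) : RelA c N fun i => (Matrix.toLin' (f i) : Module.End K (I → K)) := by
  refine ⟨?_, ?_, ?_⟩
  · intro i hi1 hi
    show (Matrix.toLin' (f i) : Module.End K (I → K)) * Matrix.toLin' (f i) =
      c • Matrix.toLin' (f i) + 1
    rw [← HKP_mul, h.quad i hi1 hi, map_add, map_smul, Matrix.toLin'_one]
    rfl
  · intro i hi1 hi
    show (Matrix.toLin' (f i) : Module.End K (I → K)) * Matrix.toLin' (f (i + 1)) *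
      Matrix.toLin' (f i) = Matrix.toLin' (f (i + 1)) * Matrix.toLin' (f i) * Matrix.toLin' (f (i + 1))
    rw [← HKP_mul, ← HKP_mul, ← HKP_mul, ← HKP_mul,
      h.braid i hi1 hi]
  · intro i j hi hij hj
    show (Matrix.toLin' (f i) : Module.End K (I → K)) * Matrix.toLin' (f j) =
      Matrix.toLin' (f j) * Matrix.toLin' (f i)
    rw [← HKP_mul, ← HKP_mul, h.comm i j hi hij hj]

end hkp

theorem HKP (h : HK_stmt) : HKP_stmt := by
  intro t K _ _ v hv n k α M S hα hk hM
  have hg := GenQ_Qt hv t
  have hrel := HKP_toLin (HKP_relF hg n α.sum M S)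
  have htr : ∀ l : List ℕ, trP α.sum M S (opWQ (Qt t v) v n l) =
      LinearMap.trace K (paths α.sum M S → K) (l.map fun i =>
        (Matrix.toLin' (matF (paths α.sum M S) (opQ (Qt t v) v n i)) :
          Module.End K (paths α.sum M S → K))).prod := by
    intro l
    have h1 := (matF_prod (opQ (Qt t v) v n) l fun i _ => Stab_opQ hg n α.sum M S i).2
    have h2 : (l.map fun i => (Matrix.toLin' (matF (paths α.sum M S) (opQ (Qt t v) v n i)) :
          Module.End K (paths α.sum M S → K))).prod =
        Matrix.toLin' (l.map fun i => matF (paths α.sum M S) (opQ (Qt t v) v n i)).prod := by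
      clear h1
      induction l with
      | nil =>
        simp only [List.map_nil, List.prod_nil, Matrix.toLin'_one]
        rfl
      | cons i l ih => rw [List.map_cons, List.prod_cons, ih, List.map_cons, List.prod_cons, HKP_mul]
    rw [h2, ← h1]
    show ∑ w ∈ paths α.sum M S, (opWQ (Qt t v) v n l) (Finsupp.single w 1) w =
      LinearMap.trace K (paths α.sum M S → K)
        (Matrix.toLin' (matF (paths α.sum M S) (opWQ (Qt t v) v n l)))
    rw [Matrix.trace_toLin'_eq]
    rw [← Finset.sum_coe_sort]
    rfl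
  obtain ⟨p, h1, h2, h3, h4⟩ := h K v hv (paths α.sum M S → K) α.sum _ hrel α hα le_rfl
  exact ⟨p, by rw [htr]; exact h1, by rw [htr]; exact h2, h3, h4⟩

end Pool.Agent.helper27.PC
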